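import Pool.Agent.H28.RC.Basic

/-!
# The Gauss sum of a primitive ray class character (module CW)
-/

set_option autoImplicit false

open NumberField Complex
open scoped nonZeroDivisors

namespace Pool.Agent.H16.RC

open Pool.Agent.H28.RC Pool.Agent.H25.HK Pool.Agent.H25

section
variable {K : Type} [Field K] [NumberField K]

lemma coe_ideal_ne {J : Ideal (𝓞 K)} (hJ : J ≠ ⊥) : (J : FI K) ≠ 0 := by
  rwa [Ne, FractionalIdeal.coeIdeal_eq_zero]

lemma exp_trace_one (r y : K) (h : ∃ m : ℤ, ((m : ℤ) : ℚ) = Algebra.trace ℚ K (r * y)) :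
    cexp (2 * Real.pi * I * ((Algebra.trace ℚ K (r * y) : ℚ) : ℂ)) = 1 := by
  obtain ⟨m, hm⟩ := h
  rw [← hm, Complex.exp_eq_one_iff]
  refine ⟨m, ?_⟩
  push_cast
  ring

lemma trace_int (M : FI K) (hM : M ≠ 0) {r y : K} (hr : r ∈ M) (hy : y ∈ du K M) :
    ∃ m : ℤ, ((m : ℤ) : ℚ) = Algebra.trace ℚ K (r * y) := by
  unfold du at hy
  rw [FractionalIdeal.mem_dual hM] at hy
  obtain ⟨m, hm⟩ := hy r hr
  refine ⟨m, ?_⟩
  rw [mul_comm r y]
  simpa [Algebra.traceForm_apply] using hm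

end

/-- (CW) the Gauss sum. -/
theorem pf_CW : T_ID → T_CM → T_CP → T_CV → T_CI → T_RX → T_DU → T_CW := by
  intro hID hCM hCP hCV hCI hRX hDU K _ _ χ
  have hf0 : (χ.f : FI K) ≠ 0 := coe_ideal_ne χ.f_ne
  have hone : (1 : FI K) ≠ 0 := one_ne_zero
  obtain ⟨hD0, hDD, -, -, -⟩ := hDU K 1 hone
  set M0 : FI K := (χ.f : FI K)⁻¹ * du K 1 with hM0def
  have hM0 : M0 ≠ 0 := mul_ne_zero (inv_ne_zero hf0) hD0
  have hfM0 : (χ.f : FI K) * M0 = du K 1 := by
    rw [hM0def, ← mul_assoc, mul_inv_cancel₀ hf0, one_mul]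
  have hdu0 : du' χ M0 = 1 := by
    unfold du'
    rw [hfM0, hDD]
  obtain ⟨X0, hX0, -⟩ := hRX K χ.f M0 χ.f_ne hM0
  have hidl1 : idl K (1 : FI K) 1 = ⊤ := by
    refine (hID K 1 hone).2.1 ⊤ 1 ?_
    rw [FractionalIdeal.coeIdeal_top, one_mul, FractionalIdeal.spanSingleton_one]
  have h1mem : (1 : K) ∈ (1 : FI K) := FractionalIdeal.one_mem_one _
  have hcf1 : cf χ.bar (du' χ M0) 1 ≠ 0 := by
    rw [hdu0]
    have h := (hCM K χ.bar 1 hone).2.2.2.1 1 h1mem one_ne_zero (by
      rw [hidl1]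
      exact top_sup_eq _)
    intro h0
    rw [h0, norm_zero] at h
    exact zero_ne_one h
  set W : ℂ := ft K X0 (cf χ M0) 1 / cf χ.bar (du' χ M0) 1 with hW
  refine ⟨W, ?_⟩
  intro M X hM hX
  have hfM : (χ.f : FI K) * M ≠ 0 := mul_ne_zero hf0 hM
  have hduM : du' χ M ≠ 0 := (hDU K _ hfM).1
  -- case (a)
  have hA : ∀ y ∈ du' χ M, y ≠ 0 → idl K (du' χ M) y ⊔ χ.f = ⊤ →
      ft K X (cf χ M) y = W * cf χ.bar (du' χ M) y := by
    intro y hy hy0 hyf
    have h := hCI K χ M M0 X X0 hM hM0 hX hX0 y hy 1 (by rw [hdu0]; exact h1mem) hy0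
      one_ne_zero hyf (by rw [hdu0, hidl1]; exact top_sup_eq _)
    rw [hW, div_mul_eq_mul_div, eq_div_iff hcf1]
    exact h
  intro y hy
  by_cases hy0 : y = 0
  · subst hy0
    by_cases hft : χ.f = ⊤
    · -- case (d)
      have hf1 : (χ.f : FI K) = 1 := by rw [hft, FractionalIdeal.coeIdeal_top]
      obtain ⟨y', hy'0, hy'⟩ := (hID K (du' χ M) hduM).2.2.2.2.2.1
      have hA' := hA y' hy' hy'0 (by rw [hft]; exact sup_top_eq _)
      have h1 : ft K X (cf χ M) y' = ft K X (cf χ M) 0 := by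
        unfold ft
        refine Finset.sum_congr rfl fun r hr => ?_
        have hrM : r ∈ M := hX.1 r hr
        have hyM : y' ∈ du K M := by
          have := hy'
          unfold du' at this
          rwa [hf1, one_mul] at this
        rw [exp_trace_one r y' (trace_int M hM hrM hyM)]
        simp
      have h2 : cf χ.bar (du' χ M) y' = cf χ.bar (du' χ M) 0 := by
        have h := hCP K χ.bar (du' χ M) hduM 0 (FractionalIdeal.zero_mem _) y' (by
          have : ((χ.bar).f : FI K) = 1 := hf1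
          rw [this, one_mul]
          exact hy')
        rwa [zero_add] at h
      rw [← h1, ← h2]
      exact hA'
    · -- case (c)
      obtain ⟨P, hP, hfP⟩ := Ideal.exists_le_maximal χ.f hft
      rw [hCV K χ M X hM hX P hP.isPrime hfP 0 (FractionalIdeal.zero_mem _),
        (hCM K χ.bar (du' χ M) hduM).2.2.2.2.2.1 hft, mul_zero]
  · by_cases hyf : idl K (du' χ M) y ⊔ χ.f = ⊤
    · exact hA y hy hy0 hyf
    · -- case (b)
      obtain ⟨P, hP, hle⟩ := Ideal.exists_le_maximal _ hyf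
      have hfP : χ.f ≤ P := le_sup_right.trans hle
      have hiP : idl K (du' χ M) y ≤ P := le_sup_left.trans hle
      have hmem : y ∈ (P : FI K) * du' χ M := by
        have h1 := (hID K (du' χ M) hduM).1 y hy
        have h2 : y ∈ (idl K (du' χ M) y : FI K) * du' χ M := by
          rw [h1]
          exact FractionalIdeal.mem_spanSingleton_self _ _
        have h3 : (idl K (du' χ M) y : FI K) ≤ (P : FI K) :=
          (FractionalIdeal.coeIdeal_le_coeIdeal K).2 hiP
        have h4 : (idl K (du' χ M) y : FI K) * du' χ M ≤ (P : FI K) * du' χ M := by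
          gcongr
        exact h4 h2
      rw [hCV K χ M X hM hX P hP.isPrime hfP y hmem,
        (hCM K χ.bar (du' χ M) hduM).2.2.2.2.1 y hy hy0 hyf, mul_zero]

end Pool.Agent.H16.RC
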